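import Mathlib
import Pool.Agent.Lib.MP_c751e8_an.Defs
import Pool.Agent.Lib.MP_c751e8_an.Cover

open scoped ENNReal NNReal
open Pool.Agent.Lib.MP_c751e8_an

namespace Pool.Agent.Results.MP_c751e8_an.NullValueSets

/-- **Q1.** Every `E ⊆ ℝ` with `Λ_ω(E) = 0` is negligible `(C^{1,ω}, S)`. -/
theorem result (ω : ℝ≥0 → ℝ≥0) (hω : IsGauge ω) (E : Set ℝ) (hE : Lam ω E = 0) :
    Negligible (C1BigO ω) Subharmonic E := by
  intro G hG f hf h
  exact mem_subharmonic hG hf.1 (localHyp_of_big hω hE hG hf) h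

end Pool.Agent.Results.MP_c751e8_an.NullValueSets
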