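import Mathlib
import Pool.Agent.Lib.MP_c751e8_an.Defs
import Pool.Agent.Lib.MP_c751e8_an.Cover

open scoped ENNReal NNReal
open Pool.Agent.Lib.MP_c751e8_an

namespace Pool.Agent.Results.MP_c751e8_an.SigmaFiniteValueSets

/-- **Q2.** Every `E ⊆ ℝ` which is a countable union of sets of finite `Λ_ω`-measure is
negligible `(C^{1,ω}_*, S)`. -/
theorem result (ω : ℝ≥0 → ℝ≥0) (hω : IsGauge ω) (E : Set ℝ)
    (hE : ∃ S : ℕ → Set ℝ, E ⊆ ⋃ n, S n ∧ ∀ n, Lam ω (S n) < ∞) :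
    Negligible (C1LittleO ω) Subharmonic E := by
  obtain ⟨S, hES, hS⟩ := hE
  intro G hG f hf h
  exact mem_subharmonic hG hf.1 (localHyp_of_little hω hES hS hG hf) h

end Pool.Agent.Results.MP_c751e8_an.SigmaFiniteValueSets
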